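import Mathlib
import Pool.Agent.K9h21.LF.Rho
import Pool.Agent.K9h21.LF.All

/-!
# The rank part of the Beilinson–Bloch conjecture for a positive proportion of all the diagonal cubic
curves, threefolds and fivefolds over `K = ℚ(√-3)` with coefficients prime to `3`

`K` is the field of the third roots of unity.  For nonzero `b_0, ..., b_{2c+2}` in `𝓞 K`, `c = 0, 1, 2`,
let `X_b` be the smooth cubic hypersurface `∑ b_i x_i³ = 0` of dimension `n = 2 c + 1`, and let `E_δ` be
the curve `y² + δ y = x³`.  For a set `T` of `c` indices let `δ_T = ∏ b_i ∏_{i ∈ T} b_i`.  Then `H^n(X_b)`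
is the sum of the `H^1(E_{δ_T})(-c)`, and the intermediate Jacobian of `X_b` is isogenous to the product
of the `E_{δ_T}` (`1`, `5`, `21` curves for `n = 1, 3, 5`, for general coefficients not isogenous to each
other).

Now let *all* the coefficients vary: `b` runs through all the vectors of cube-free nonunits of `𝓞 K` that
are congruent to third roots of unity modulo `3` (up to signs and cubes these are all the elements prime
to `3` that are not units times cubes), ordered by the maximum of the norms.  A twist `δ_T` is exceptional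
if it is in one of the nine classes modulo cubes of the completion at `√-3` or a unit times a cube; `b` is
regular if none of the `δ_T` is exceptional.

* The proportion of the regular `b` tends to an explicit `ρ_c > 0`, `ρ_0 = 8 / 9`, `ρ_1 = 3640 / 6561`.
* The proportion of the regular `b` for which all the `δ_T` have finite `E(K)` and
  `Ш(E / K)[3^∞] = 0` tends to `ρ_c (∏_{i ≥ 0} (1 - 3^{-(2 i + 1)}))^N = ρ_c (0.639...)^N`,
  `N = (2c+3 choose c) = 1, 5, 21`.  So the `N` twists of the intermediate Jacobian are asymptotically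
  independent, although they are `N` products of only `2 c + 3` independent parameters.
* For all the regular `b` the function `L(H^n(X_b / K), s)` is entire, and if all the `E_{δ_T}(K)` are
  finite with `Ш[3^∞] = 0`, then `L(H^n(X_b / K), (n + 1) / 2) ≠ 0`.
* So both sides of the conjecture are zero for at least `ρ_c (0.639...)^N` of all the `X_b`, for instance
  for more than `56%` of the diagonal cubic curves and more than `5.9%` of the diagonal cubic threefolds
  of the family.
* In particular both sides are zero for a positive proportion of ALL the diagonal cubic curves, threefolds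
  and fivefolds over `K`: of all the vectors of nonzero coefficients in `𝓞 K`, ordered by the maximum of
  the norms.

The `L`-function is given by the numbers of points: for a place `v` not dividing `3 b_0 ... b_{2c+2}` the
eigenvalues `α` of the Frobenius on `H^n(X_b)` are determined by
`#X_b(k') = 1 + q' + ... + q'^n - ∑ α^r` for all the finite extensions `k'` of the residue field,
`q' = #k'`, `r` the degree of `k'`.  By this and by Faltings `H^n(X_b)` is the direct sum of the
`H^1(E_{δ_T})(-c)`.  At the other places not dividing `3` a curve `E_{δ_T}` has good reduction if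
`v(δ_T)` is divisible by `3`, and no invariants of inertia otherwise; at the place dividing `3` none of
the curves has invariants of inertia.

Relation to the conjecture (not formalized): the group of the homologically trivial cycles of codimension
`i`, tensored with `ℚ`, is `J(K) ⊗ ℚ` for the intermediate Jacobian `J` and `i = c + 1`, and `0` for all
the other `i` (Murre, Bloch and Murre, Bloch and Srinivas for threefolds; Collino, Paranjape for
fivefolds).  So, when both sides are zero, `rank CH^i(X)_hom = ord_{s = i} L(H^{2 i - 1}(X), s)` for all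
`i`.

The law (`Pool/Agent/K9h21`, directories `LB`, `NC`, `AR`, `LF`, helper21) is new: the joint distribution
of the kernels of the weighted Laplacians of the twists for several independent parameters (linear algebra
over `𝔽_3` for coloured completions, character sums, uniform mean values, collisions between the
parameters).  It is different from the law for one varying parameter in `JointLawDiagonalCubics.lean`:
there the twists have the same varying primes and differ by fixed factors, here they are different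
products of the varying parameters.  The `3`-descent, the `L`-functions of the curves and the numbers of
points are from the projects CT, XK, CTK, CTE, KF, FF, FG of other helpers, see the headers of
`Pool/Agent/N883/FF/End.lean` and of the files imported there.
-/

set_option autoImplicit false

namespace Pool.Agent.Results.MP_b8021b_nt.AllDiagonalCubics

open NumberField IsDedekindDomain WeierstrassCurve
open Pool.Agent.TH841.NF.D (Sha)
open scoped Classical

/-- The curve `E_D : y² + D y = x³`. -/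
def curve {F : Type} [Field F] (D : F) : WeierstrassCurve F := ⟨0, 0, D, 0, 0⟩

/-- The solutions, not all zero, of `∑ a i x i ^ 3 = 0` in the field `F`. -/
def solutions {m : ℕ} {F : Type} [Field F] (a : Fin m → F) : Set (Fin m → F) :=
  {x | x ≠ 0 ∧ ∑ i, a i * x i ^ 3 = 0}

variable {K : Type} [Field K] [NumberField K]

/-- `A` is the multiset of the eigenvalues of the Frobenius at `v` on `H^n(X)`, for the hypersurface
`X : ∑ a i x i ^ 3 = 0` of dimension `n = 2 c + 1`: for every extension `F` of degree `r` of the residue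
field of `v` (`f` is the reduction), with `q'` elements, the equation has
`(q' - 1) (1 + q' + ... + q'^n - ∑ α^r)` nonzero solutions in `F`. -/
def IsFrobenius {c : ℕ} (a : Fin (2 * c + 3) → 𝓞 K) (v : HeightOneSpectrum (𝓞 K))
    (A : Multiset ℂ) : Prop :=
  ∀ (F : Type) [Field F] [Finite F] (f : 𝓞 K →+* F) (r : ℕ), RingHom.ker f = v.asIdeal →
    Nat.card F = Ideal.absNorm v.asIdeal ^ r →
    ((solutions fun i => f (a i)).ncard : ℂ) = (Nat.card F - 1) *
      (∑ i ∈ Finset.range (2 * c + 2), (Nat.card F : ℂ) ^ i - (A.map (fun α => α ^ r)).sum)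

/-- `δ_T = ∏ a i * ∏ i ∈ T, a i` -/
def twist {m : ℕ} (a : Fin m → 𝓞 K) (T : Finset (Fin m)) : 𝓞 K := (∏ i, a i) * ∏ i ∈ T, a i

/-- `B` is the multiset of the eigenvalues of the Frobenius at `v`, `v ∤ 3`, on the invariants of inertia
of `H^1(E_δ)(-c)`: if `δ` is in the class modulo cubes of an element `u` prime to `v`, so that
`y² + u y = x³` is a model with good reduction, these are the two numbers `N(v)^c β`, `N(v)^c conj β`
given by the number of the points of this model modulo `v`; otherwise there are no invariants. -/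
def IsLocal (c : ℕ) (δ : 𝓞 K) (v : HeightOneSpectrum (𝓞 K)) (B : Multiset ℂ) : Prop :=
  (∃ u x y : 𝓞 K, u ∉ v.asIdeal ∧ x ≠ 0 ∧ y ≠ 0 ∧ δ * x ^ 3 = u * y ^ 3 ∧ ∃ β : ℂ,
    β * (starRingEnd ℂ) β = Ideal.absNorm v.asIdeal ∧
    (Nat.card {P : (𝓞 K ⧸ v.asIdeal) × (𝓞 K ⧸ v.asIdeal) //
      P.2 ^ 2 + Ideal.Quotient.mk v.asIdeal u * P.2 = P.1 ^ 3} : ℂ) =
        Ideal.absNorm v.asIdeal - (β + (starRingEnd ℂ) β) ∧
    B = {(Ideal.absNorm v.asIdeal : ℂ) ^ c * β,
      (Ideal.absNorm v.asIdeal : ℂ) ^ c * (starRingEnd ℂ) β}) ∨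
  ((∀ u x y : 𝓞 K, u ∉ v.asIdeal → x ≠ 0 → y ≠ 0 → δ * x ^ 3 ≠ u * y ^ 3) ∧ B = 0)

/-- `L` is entire and equal to `L(H^n(X / K), s)` for `Re s > n / 2 + 1`, for the hypersurface
`X : ∑ a i x i ^ 3 = 0` of dimension `n = 2 c + 1`.  At the places `v` not dividing `3` and the `a i` the
`2 (2c+3 choose c)` eigenvalues of the Frobenius have the absolute value `N(v)^(n / 2)`; at all the
places not dividing `3` the eigenvalues on the invariants of inertia are those of the
`H^1(E_{δ_T})(-c)`, `T` the sets of `c` indices.  At the places dividing `3` the Euler factor is `1`. -/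
def IsLFunction {c : ℕ} (a : Fin (2 * c + 3) → 𝓞 K) (L : ℂ → ℂ) : Prop :=
  Differentiable ℂ L ∧ ∃ A : HeightOneSpectrum (𝓞 K) → Multiset ℂ,
    (∀ v, (3 : 𝓞 K) ∉ v.asIdeal → (∀ i, a i ∉ v.asIdeal) → IsFrobenius a v (A v) ∧
      (A v).card = 2 * (2 * c + 3).choose c ∧
      ∀ α ∈ A v, ‖α‖ ^ 2 = (Ideal.absNorm v.asIdeal : ℝ) ^ (2 * c + 1)) ∧
    (∀ v, (3 : 𝓞 K) ∉ v.asIdeal → ∃ B : Finset (Fin (2 * c + 3)) → Multiset ℂ,
      A v = ∑ T ∈ (Finset.univ : Finset (Fin (2 * c + 3))).powersetCard c, B T ∧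
      ∀ T ∈ (Finset.univ : Finset (Fin (2 * c + 3))).powersetCard c, IsLocal c (twist a T) v (B T)) ∧
    (∀ v, (3 : 𝓞 K) ∈ v.asIdeal → A v = 0) ∧
    ∀ s : ℂ, (2 * c + 1 : ℝ) / 2 + 1 < s.re →
      HasProd (fun v : HeightOneSpectrum (𝓞 K) => ((A v).map
        (fun α => (1 - α * (Ideal.absNorm v.asIdeal : ℂ) ^ (-s))⁻¹)).prod) (L s)

/-- `δ` is congruent to a third root of unity modulo `3`. -/
def Primary (δ : 𝓞 K) : Prop := ∃ ω : 𝓞 K, ω ^ 3 = 1 ∧ (3 : 𝓞 K) ∣ δ - ω

/-- `D` is a cube-free nonunit, congruent to a third root of unity modulo `3`. -/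
def InFamily (D : 𝓞 K) : Prop :=
  ¬ IsUnit D ∧ (∀ x : 𝓞 K, x ^ 3 ∣ D → IsUnit x) ∧ Primary D

/-- The exceptional classes: `δ` is `1` modulo `3` and its norm is `1` modulo `9`, or `δ` is a unit times
a cube. -/
def Exceptional (δ : 𝓞 K) : Prop :=
  ((3 : 𝓞 K) ∣ δ - 1 ∧ (9 : ℤ) ∣ Algebra.norm ℤ δ - 1) ∨ ∃ u z : 𝓞 K, IsUnit u ∧ δ = u * z ^ 3

/-- `E_δ(K)` is finite and the `3`-primary part of `Ш(E_δ / K)` is trivial. -/
def FiniteAndTrivial (δ : 𝓞 K) : Prop :=
  Finite (curve (δ : K)).toAffine.Point ∧ ∀ (n : ℕ) (x : Sha (curve (δ : K))), 3 ^ n • x = 0 → x = 0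

/-- Both sides of the conjecture are zero: the groups `E_{δ_T}(K)` are finite for all the sets `T` of `c`
indices, and `L(H^n(X / K), s)` is entire and not zero at `s = (n + 1) / 2 = c + 1`. -/
def RankZero {c : ℕ} (a : Fin (2 * c + 3) → 𝓞 K) : Prop :=
  (∀ T : Finset (Fin (2 * c + 3)), T.card = c →
    Finite (curve ((twist a T : 𝓞 K) : K)).toAffine.Point) ∧
  ∃ L : ℂ → ℂ, IsLFunction a L ∧ L (c + 1) ≠ 0

/-- the vectors of coefficients in the family with norms at most `X` -/
def Family (K : Type) [Field K] [NumberField K] (c X : ℕ) : Set (Fin (2 * c + 3) → 𝓞 K) :=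
  {b | ∀ i, InFamily (b i) ∧ Algebra.norm ℤ (b i) ≤ X}

/-- all the vectors of nonzero coefficients with norms at most `X` -/
def AllForms (K : Type) [Field K] [NumberField K] (c X : ℕ) : Set (Fin (2 * c + 3) → 𝓞 K) :=
  {b | ∀ i, b i ≠ 0 ∧ Algebra.norm ℤ (b i) ≤ X}

/-- no twist is exceptional -/
def Regular {c : ℕ} (b : Fin (2 * c + 3) → 𝓞 K) : Prop :=
  ∀ T : Finset (Fin (2 * c + 3)), T.card = c → ¬ Exceptional (twist b T)

/-- the proportion of the pairs of vectors `(h, κ)` over `𝔽_3` such that for no set `T` of `c` indices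
both `∑ h i + ∑ i ∈ T, h i` and `∑ κ i + ∑ i ∈ T, κ i` are zero -/
noncomputable def density (c : ℕ) : ℝ :=
  (Nat.card {p : (Fin (2 * c + 3) → ZMod 3) × (Fin (2 * c + 3) → ZMod 3) //
    ∀ T : Finset (Fin (2 * c + 3)), T.card = c →
      ¬ (∑ i, p.1 i + ∑ i ∈ T, p.1 i = 0 ∧ ∑ i, p.2 i + ∑ i ∈ T, p.2 i = 0)} : ℝ) /
    9 ^ (2 * c + 3)

lemma density_eq (c : ℕ) :
    density c = (Pool.Agent.K9h21.NC.NOk (Pool.Agent.K9h21.LF.nn c) : ℝ) / 9 ^ (2 * c + 3) := by
  unfold density
  rw [Pool.Agent.K9h21.LF.nok_card]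
  congr 2
  refine Nat.card_congr (Equiv.subtypeEquivRight fun p => ?_)
  rw [Pool.Agent.K9h21.LF.ok_iff]
  unfold Pool.Agent.K9h21.LF.OkF
  refine forall₂_congr fun T _ => ?_
  tauto

theorem result (K : Type) [Field K] [NumberField K] [IsCyclotomicExtension {3} ℚ K] (c : ℕ)
    (hc : c ≤ 2) :
    (∃ δ : ℝ, 0 < δ ∧ ∃ X₀ : ℕ, ∀ X : ℕ, X₀ ≤ X →
      δ * (X : ℝ) ^ (2 * c + 3) ≤ ((Family K c X).ncard : ℝ)) ∧
    Filter.Tendsto (fun X : ℕ => ({b ∈ Family K c X | Regular b}.ncard : ℝ) /
      ((Family K c X).ncard : ℝ)) Filter.atTop (nhds (density c)) ∧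
    Filter.Tendsto (fun X : ℕ => ({b ∈ Family K c X | Regular b ∧
        ∀ T : Finset (Fin (2 * c + 3)), T.card = c → FiniteAndTrivial (twist b T)}.ncard : ℝ) /
      ((Family K c X).ncard : ℝ)) Filter.atTop
      (nhds (density c * (∏' i : ℕ, (1 - (1 / 3 : ℝ) ^ (2 * i + 1))) ^ (2 * c + 3).choose c)) ∧
    0 < density c ∧ density 0 = 8 / 9 ∧ density 1 = 3640 / 6561 ∧
    (0.639 : ℝ) < ∏' i : ℕ, (1 - (1 / 3 : ℝ) ^ (2 * i + 1)) ∧
    (∀ X : ℕ, ∀ b ∈ Family K c X, Regular b → (∃ L : ℂ → ℂ, IsLFunction b L) ∧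
      ((∀ T : Finset (Fin (2 * c + 3)), T.card = c → FiniteAndTrivial (twist b T)) →
        RankZero b)) ∧
    (∀ ε : ℝ, 0 < ε → ∃ X₀ : ℕ, ∀ X : ℕ, X₀ ≤ X →
      (density c * (∏' i : ℕ, (1 - (1 / 3 : ℝ) ^ (2 * i + 1))) ^ (2 * c + 3).choose c - ε) *
        ((Family K c X).ncard : ℝ) ≤ ({b ∈ Family K c X | RankZero b}.ncard : ℝ)) ∧
    ∃ δ : ℝ, 0 < δ ∧ ∃ X₀ : ℕ, ∀ X : ℕ, X₀ ≤ X →
      δ * ((AllForms K c X).ncard : ℝ) ≤ ({b ∈ AllForms K c X | RankZero b}.ncard : ℝ) := by
  obtain ⟨⟨δ, hδ, h1⟩, h2, h3⟩ := Pool.Agent.K9h21.LF.vecK (K := K) c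
  rw [← density_eq] at h2 h3
  have eF : ∀ X : ℕ, {D : Fin (2 * c + 3) → 𝓞 K | ∀ i, Algebra.norm ℤ (D i) ≤ X ∧
      Pool.Agent.N883.FF.FamK (D i)} = Family K c X := by
    intro X
    ext D
    exact forall_congr' fun i => and_comm
  have eR : ∀ X : ℕ, {D : Fin (2 * c + 3) → 𝓞 K | (∀ i, Algebra.norm ℤ (D i) ≤ X ∧
      Pool.Agent.N883.FF.FamK (D i)) ∧ ∀ T : Finset (Fin (2 * c + 3)), T.card = c →
        ¬ Pool.Agent.K9h21.LF.ExK (Pool.Agent.N883.DQ.Dt D T)} =
      {b ∈ Family K c X | Regular b} := by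
    intro X
    ext D
    exact and_congr (forall_congr' fun i => and_comm) Iff.rfl
  have eT : ∀ X : ℕ, {D : Fin (2 * c + 3) → 𝓞 K | (∀ i, Algebra.norm ℤ (D i) ≤ X ∧
      Pool.Agent.N883.FF.FamK (D i)) ∧ ((∀ T : Finset (Fin (2 * c + 3)), T.card = c →
        ¬ Pool.Agent.K9h21.LF.ExK (Pool.Agent.N883.DQ.Dt D T)) ∧
        ∀ T : Finset (Fin (2 * c + 3)), T.card = c →
          Pool.Agent.Y696.CTK.Tri (Pool.Agent.N883.DQ.Dt D T))} =
      {b ∈ Family K c X | Regular b ∧
        ∀ T : Finset (Fin (2 * c + 3)), T.card = c → FiniteAndTrivial (twist b T)} := by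
    intro X
    ext D
    exact and_congr (forall_congr' fun i => and_comm) Iff.rfl
  simp only [eF, eR, eT] at h1 h2 h3
  obtain ⟨X₁, hX₁⟩ := Filter.eventually_atTop.1 h1
  have hpt : ∀ X : ℕ, ∀ b ∈ Family K c X, Regular b → (∃ L : ℂ → ℂ, IsLFunction b L) ∧
      ((∀ T : Finset (Fin (2 * c + 3)), T.card = c → FiniteAndTrivial (twist b T)) →
        RankZero b) := by
    intro X b hb hreg
    obtain ⟨L, hL1, hL2⟩ := Pool.Agent.K9h21.LF.one_hyp hc (a := b) (fun i => by
      have h5 := (hb i).1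
      refine ⟨?_, h5.2.2⟩
      intro h0
      rw [h0] at h5
      exact not_isUnit_zero (h5.2.1 0 (by rw [zero_pow three_ne_zero])))
      (fun T hT => Or.inl (hreg T hT))
    exact ⟨⟨L, hL1⟩, fun ht => ⟨fun T hT => (ht T hT).1, L, hL1, hL2 ht⟩⟩
  have hpos : 0 < density c := by
    rw [density_eq]
    exact Pool.Agent.K9h21.LF.rho_pos hc
  have hfam : ∀ ε : ℝ, 0 < ε → ∃ X₀ : ℕ, ∀ X : ℕ, X₀ ≤ X →
      (density c * (∏' i : ℕ, (1 - (1 / 3 : ℝ) ^ (2 * i + 1))) ^ (2 * c + 3).choose c - ε) *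
        ((Family K c X).ncard : ℝ) ≤ ({b ∈ Family K c X | RankZero b}.ncard : ℝ) := by
    intro ε hε
    have h4 := h3.eventually (lt_mem_nhds (sub_lt_self _ hε))
    obtain ⟨X₂, hX₂⟩ := Filter.eventually_atTop.1 h4
    refine ⟨max (max X₁ X₂) 1, fun X hX => ?_⟩
    have k1 := hX₁ X ((le_max_left _ _).trans ((le_max_left _ _).trans hX))
    have k2 := hX₂ X ((le_max_right _ _).trans ((le_max_left _ _).trans hX))
    have hX1 : (1 : ℝ) ≤ X := by exact_mod_cast (le_max_right _ _).trans hX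
    have hN : (0 : ℝ) < ((Family K c X).ncard : ℝ) := lt_of_lt_of_le (by positivity) k1
    have hfin : (Family K c X).Finite := by
      refine Set.finite_of_ncard_ne_zero fun h0 => ?_
      rw [h0] at hN
      exact lt_irrefl _ (by exact_mod_cast hN)
    rw [lt_div_iff₀ hN] at k2
    refine k2.le.trans ?_
    have hsub : {b ∈ Family K c X | Regular b ∧
        ∀ T : Finset (Fin (2 * c + 3)), T.card = c → FiniteAndTrivial (twist b T)} ⊆
        {b ∈ Family K c X | RankZero b} := by
      rintro b ⟨hb, hr, ht⟩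
      exact ⟨hb, (hpt X b hb hr).2 ht⟩
    exact_mod_cast Set.ncard_le_ncard hsub (hfin.subset fun b hb => hb.1)
  refine ⟨⟨δ, hδ, X₁, hX₁⟩, h2, h3, hpos, ?_, ?_, Pool.Agent.XLK.t_C9.2.2.2.1, hpt, hfam, ?_⟩
  · rw [density_eq]
    exact Pool.Agent.K9h21.LF.rho0
  · rw [density_eq]
    exact Pool.Agent.K9h21.LF.rho1
  · have hc9 : (0 : ℝ) < ∏' i : ℕ, (1 - (1 / 3 : ℝ) ^ (2 * i + 1)) :=
      lt_trans (by norm_num) Pool.Agent.XLK.t_C9.2.2.2.1
    set τ : ℝ := density c * (∏' i : ℕ, (1 - (1 / 3 : ℝ) ^ (2 * i + 1))) ^ (2 * c + 3).choose c with hτ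
    have hτ0 : 0 < τ := mul_pos hpos (pow_pos hc9 _)
    obtain ⟨X₂, hX₂⟩ := hfam (τ / 2) (half_pos hτ0)
    refine ⟨τ / 2 * δ / 16 ^ (2 * c + 3), by positivity, max (max X₁ X₂) 1, fun X hX => ?_⟩
    have k1 := hX₁ X ((le_max_left _ _).trans ((le_max_left _ _).trans hX))
    have k2 := hX₂ X ((le_max_right _ _).trans ((le_max_left _ _).trans hX))
    obtain ⟨hfin, k3⟩ := Pool.Agent.K9h21.LF.all_le (K := K) (2 * c + 3) X
      ((le_max_right _ _).trans hX)
    have k4 : ((AllForms K c X).ncard : ℝ) ≤ 16 ^ (2 * c + 3) * (X : ℝ) ^ (2 * c + 3) := by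
      rw [← mul_pow]
      exact k3
    have hsub : {b ∈ Family K c X | RankZero b} ⊆ {b ∈ AllForms K c X | RankZero b} := by
      rintro b ⟨hb, hr⟩
      refine ⟨fun i => ⟨?_, (hb i).2⟩, hr⟩
      intro h0
      have h5 := (hb i).1
      rw [h0] at h5
      exact not_isUnit_zero (h5.2.1 0 (by rw [zero_pow three_ne_zero]))
    have k5 : ({b ∈ Family K c X | RankZero b}.ncard : ℝ) ≤
        ({b ∈ AllForms K c X | RankZero b}.ncard : ℝ) := by
      exact_mod_cast Set.ncard_le_ncard hsub (hfin.subset fun b hb => hb.1)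
    refine le_trans ?_ k5
    refine le_trans ?_ k2
    have e1 : τ - τ / 2 = τ / 2 := by ring
    rw [e1]
    calc τ / 2 * δ / 16 ^ (2 * c + 3) * ((AllForms K c X).ncard : ℝ)
        ≤ τ / 2 * δ / 16 ^ (2 * c + 3) * (16 ^ (2 * c + 3) * (X : ℝ) ^ (2 * c + 3)) :=
          mul_le_mul_of_nonneg_left k4 (by positivity)
      _ = τ / 2 * (δ * (X : ℝ) ^ (2 * c + 3)) := by
          field_simp
      _ ≤ τ / 2 * ((Family K c X).ncard : ℝ) := mul_le_mul_of_nonneg_left k1 (by positivity)

end Pool.Agent.Results.MP_b8021b_nt.AllDiagonalCubics
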