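import Mathlib
import Pool.Agent.K9h21.LF.Fin

/-!
# The rank part of the Beilinson–Bloch conjecture for diagonal cubic curves, threefolds and fivefolds
# over `K = ℚ(√-3)` with arbitrary fixed coefficients and one varying parameter: the joint law of the
# twists in the intermediate Jacobian

`K` is the field of the third roots of unity.  For nonzero `b_0, ..., b_{2c+2}` in `𝓞 K`, `c = 0, 1, 2`,
let `X_b` be the smooth cubic hypersurface `∑ b_i x_i³ = 0` of dimension `n = 2 c + 1`, and let `E_δ` be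
the curve `y² + δ y = x³`.  For a set `T` of `c` indices let `δ_T = ∏ b_i ∏_{i ∈ T} b_i`.  Then `H^n(X_b)`
is the sum of the `H^1(E_{δ_T})(-c)`, and the intermediate Jacobian of `X_b` is isogenous to the product
of the `E_{δ_T}` (`1`, `5`, `21` curves for `n = 1, 3, 5`, for general coefficients not isogenous to each
other).

Let the coefficients be `b_i = a_i D^{e_i}` with arbitrary fixed `e_i ≥ 0` and nonzero `a_i`, congruent to
third roots of unity modulo `3` (up to cubes: all the coefficients prime to `3`), for instance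
`D x_0³ + a_1 x_1³ + … + a_{2c+2} x_{2c+2}³ = 0`, and let `D` run through the cube-free nonunits of `𝓞 K`
that are congruent to a third root of unity modulo `3`, ordered by the norm.  The twists are
`δ_T D^{e_T}`, `δ_T = ∏ a_i ∏_{i ∈ T} a_i`, `e_T = ∑ e_i + ∑_{i ∈ T} e_i`; those with `3 ∤ e_T` vary with
`D`.  A twist is exceptional if it is in one of the nine classes modulo cubes of the completion at `√-3`
or a unit times a cube; `D` is regular if none of the varying twists is exceptional.

* A positive proportion of the `D` is regular (for fivefolds: if there is one regular `D`; for curves and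
  threefolds always).
* The joint law: the proportion of the regular `D` for which all the varying twists have finite `E(K)`
  and `Ш(E / K)[3^∞] = 0` tends to `(∏_{i ≥ 0} (1 - 3^{-(2 i + 1)}))^κ = (0.639...)^κ`, where `κ` is the
  number of the different classes modulo cubes among the `δ_T^{e_T}`, `3 ∤ e_T`.  So the twists of
  different classes are asymptotically independent.
* For all the regular `D` (and constant twists that are not exceptional or are cubes) the function
  `L(H^n(X_b / K), s)` is entire, and if all the `E_{δ_T}(K)` are finite with `Ш[3^∞] = 0`, then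
  `L(H^n(X_b / K), (n + 1) / 2) ≠ 0`.

So for arbitrary coefficients `a_1, ..., a_{2c+2}` prime to `3` the hypersurface
`D x_0³ + a_1 x_1³ + … + a_{2c+2} x_{2c+2}³ = 0` has both sides of the conjecture equal to zero for a
positive proportion of all the `D`, at least `(0.639...)^κ`, `κ ≤ 1, 5, 21`, of the regular ones (for
fivefolds if there is a regular `D`).

The `L`-function is given by the numbers of points: for a place `v` not dividing `3 b_0 ... b_{2c+2}` the
eigenvalues `α` of the Frobenius on `H^n(X_b)` are determined by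
`#X_b(k') = 1 + q' + ... + q'^n - ∑ α^r` for all the finite extensions `k'` of the residue field,
`q' = #k'`, `r` the degree of `k'`.  By this and by Faltings `H^n(X_b)` is the direct sum of the
`H^1(E_{δ_T})(-c)`.  At the other places not dividing `3` a curve `E_{δ_T}` has good reduction if
`v(δ_T)` is divisible by `3`, and no invariants of inertia otherwise; at the place dividing `3` none of
the curves has invariants of inertia.

Relation to the conjecture (not formalized): the group of the homologically trivial cycles of codimension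
`i`, tensored with `ℚ`, is `J(K) ⊗ ℚ` for the intermediate Jacobian `J` and `i = c + 1`, and `0` for all
the other `i` (Murre, Bloch and Murre, Bloch and Srinivas for threefolds; Collino, Paranjape for
fivefolds).  So, when both sides are zero, `rank CH^i(X)_hom = ord_{s = i} L(H^{2 i - 1}(X), s)` for all
`i`.

The joint law (`Pool/Agent/K9h21`, helper21) is new: the joint distribution of the kernels of the
weighted Laplacians of several twists (linear algebra over `𝔽_3`, character sums, mean values).  The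
`3`-descent, the `L`-functions of the curves and the numbers of points are from the projects CT, XK, CTK,
CTE, KF, FF, FG of other helpers, see the headers of `Pool/Agent/N883/FF/End.lean` and of the files
imported there.
-/

set_option autoImplicit false

namespace Pool.Agent.Results.MP_b8021b_nt.JointLawDiagonalCubics

open NumberField IsDedekindDomain WeierstrassCurve
open Pool.Agent.TH841.NF.D (Sha)
open scoped Classical

/-- The curve `E_D : y² + D y = x³`. -/
def curve {F : Type} [Field F] (D : F) : WeierstrassCurve F := ⟨0, 0, D, 0, 0⟩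

/-- The solutions, not all zero, of `∑ a i x i ^ 3 = 0` in the field `F`. -/
def solutions {m : ℕ} {F : Type} [Field F] (a : Fin m → F) : Set (Fin m → F) :=
  {x | x ≠ 0 ∧ ∑ i, a i * x i ^ 3 = 0}

variable {K : Type} [Field K] [NumberField K]

/-- `A` is the multiset of the eigenvalues of the Frobenius at `v` on `H^n(X)`, for the hypersurface
`X : ∑ a i x i ^ 3 = 0` of dimension `n = 2 c + 1`: for every extension `F` of degree `r` of the residue
field of `v` (`f` is the reduction), with `q'` elements, the equation has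
`(q' - 1) (1 + q' + ... + q'^n - ∑ α^r)` nonzero solutions in `F`. -/
def IsFrobenius {c : ℕ} (a : Fin (2 * c + 3) → 𝓞 K) (v : HeightOneSpectrum (𝓞 K))
    (A : Multiset ℂ) : Prop :=
  ∀ (F : Type) [Field F] [Finite F] (f : 𝓞 K →+* F) (r : ℕ), RingHom.ker f = v.asIdeal →
    Nat.card F = Ideal.absNorm v.asIdeal ^ r →
    ((solutions fun i => f (a i)).ncard : ℂ) = (Nat.card F - 1) *
      (∑ i ∈ Finset.range (2 * c + 2), (Nat.card F : ℂ) ^ i - (A.map (fun α => α ^ r)).sum)

/-- `δ_T = ∏ a i * ∏ i ∈ T, a i` -/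
def twist {m : ℕ} (a : Fin m → 𝓞 K) (T : Finset (Fin m)) : 𝓞 K := (∏ i, a i) * ∏ i ∈ T, a i

/-- `B` is the multiset of the eigenvalues of the Frobenius at `v`, `v ∤ 3`, on the invariants of inertia
of `H^1(E_δ)(-c)`: if `δ` is in the class modulo cubes of an element `u` prime to `v`, so that
`y² + u y = x³` is a model with good reduction, these are the two numbers `N(v)^c β`, `N(v)^c conj β`
given by the number of the points of this model modulo `v`; otherwise there are no invariants. -/
def IsLocal (c : ℕ) (δ : 𝓞 K) (v : HeightOneSpectrum (𝓞 K)) (B : Multiset ℂ) : Prop :=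
  (∃ u x y : 𝓞 K, u ∉ v.asIdeal ∧ x ≠ 0 ∧ y ≠ 0 ∧ δ * x ^ 3 = u * y ^ 3 ∧ ∃ β : ℂ,
    β * (starRingEnd ℂ) β = Ideal.absNorm v.asIdeal ∧
    (Nat.card {P : (𝓞 K ⧸ v.asIdeal) × (𝓞 K ⧸ v.asIdeal) //
      P.2 ^ 2 + Ideal.Quotient.mk v.asIdeal u * P.2 = P.1 ^ 3} : ℂ) =
        Ideal.absNorm v.asIdeal - (β + (starRingEnd ℂ) β) ∧
    B = {(Ideal.absNorm v.asIdeal : ℂ) ^ c * β,
      (Ideal.absNorm v.asIdeal : ℂ) ^ c * (starRingEnd ℂ) β}) ∨
  ((∀ u x y : 𝓞 K, u ∉ v.asIdeal → x ≠ 0 → y ≠ 0 → δ * x ^ 3 ≠ u * y ^ 3) ∧ B = 0)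

/-- `L` is entire and equal to `L(H^n(X / K), s)` for `Re s > n / 2 + 1`, for the hypersurface
`X : ∑ a i x i ^ 3 = 0` of dimension `n = 2 c + 1`.  At the places `v` not dividing `3` and the `a i` the
`2 (2c+3 choose c)` eigenvalues of the Frobenius have the absolute value `N(v)^(n / 2)`; at all the
places not dividing `3` the eigenvalues on the invariants of inertia are those of the
`H^1(E_{δ_T})(-c)`, `T` the sets of `c` indices.  At the places dividing `3` the Euler factor is `1`. -/
def IsLFunction {c : ℕ} (a : Fin (2 * c + 3) → 𝓞 K) (L : ℂ → ℂ) : Prop :=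
  Differentiable ℂ L ∧ ∃ A : HeightOneSpectrum (𝓞 K) → Multiset ℂ,
    (∀ v, (3 : 𝓞 K) ∉ v.asIdeal → (∀ i, a i ∉ v.asIdeal) → IsFrobenius a v (A v) ∧
      (A v).card = 2 * (2 * c + 3).choose c ∧
      ∀ α ∈ A v, ‖α‖ ^ 2 = (Ideal.absNorm v.asIdeal : ℝ) ^ (2 * c + 1)) ∧
    (∀ v, (3 : 𝓞 K) ∉ v.asIdeal → ∃ B : Finset (Fin (2 * c + 3)) → Multiset ℂ,
      A v = ∑ T ∈ (Finset.univ : Finset (Fin (2 * c + 3))).powersetCard c, B T ∧
      ∀ T ∈ (Finset.univ : Finset (Fin (2 * c + 3))).powersetCard c, IsLocal c (twist a T) v (B T)) ∧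
    (∀ v, (3 : 𝓞 K) ∈ v.asIdeal → A v = 0) ∧
    ∀ s : ℂ, (2 * c + 1 : ℝ) / 2 + 1 < s.re →
      HasProd (fun v : HeightOneSpectrum (𝓞 K) => ((A v).map
        (fun α => (1 - α * (Ideal.absNorm v.asIdeal : ℂ) ^ (-s))⁻¹)).prod) (L s)

/-- `δ` is congruent to a third root of unity modulo `3`. -/
def Primary (δ : 𝓞 K) : Prop := ∃ ω : 𝓞 K, ω ^ 3 = 1 ∧ (3 : 𝓞 K) ∣ δ - ω

/-- `D` is a cube-free nonunit, congruent to a third root of unity modulo `3`. -/
def InFamily (D : 𝓞 K) : Prop :=
  ¬ IsUnit D ∧ (∀ x : 𝓞 K, x ^ 3 ∣ D → IsUnit x) ∧ Primary D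

/-- The exceptional classes: `δ` is `1` modulo `3` and its norm is `1` modulo `9`, or `δ` is a unit times
a cube. -/
def Exceptional (δ : 𝓞 K) : Prop :=
  ((3 : 𝓞 K) ∣ δ - 1 ∧ (9 : ℤ) ∣ Algebra.norm ℤ δ - 1) ∨ ∃ u z : 𝓞 K, IsUnit u ∧ δ = u * z ^ 3

/-- `E_δ(K)` is finite and the `3`-primary part of `Ш(E_δ / K)` is trivial. -/
def FiniteAndTrivial (δ : 𝓞 K) : Prop :=
  Finite (curve (δ : K)).toAffine.Point ∧ ∀ (n : ℕ) (x : Sha (curve (δ : K))), 3 ^ n • x = 0 → x = 0

/-- Both sides of the conjecture are zero: the groups `E_{δ_T}(K)` are finite for all the sets `T` of `c`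
indices, and `L(H^n(X / K), s)` is entire and not zero at `s = (n + 1) / 2 = c + 1`. -/
def RankZero {c : ℕ} (a : Fin (2 * c + 3) → 𝓞 K) : Prop :=
  (∀ T : Finset (Fin (2 * c + 3)), T.card = c →
    Finite (curve ((twist a T : 𝓞 K) : K)).toAffine.Point) ∧
  ∃ L : ℂ → ℂ, IsLFunction a L ∧ L (c + 1) ≠ 0

/-- the exponent of `D` in `δ_T` for the coefficients `a i * D ^ e i` -/
def exponent {m : ℕ} (e : Fin m → ℕ) (T : Finset (Fin m)) : ℕ := ∑ i, e i + ∑ i ∈ T, e i

/-- the sets `T` of `c` indices for which the twist `δ_T D ^ (e_T)` varies with `D` -/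
def varying (c : ℕ) (e : Fin (2 * c + 3) → ℕ) : Finset (Finset (Fin (2 * c + 3))) :=
  {T ∈ (Finset.univ : Finset (Fin (2 * c + 3))).powersetCard c | ¬ 3 ∣ exponent e T}

/-- no varying twist is exceptional -/
def Regular {c : ℕ} (a : Fin (2 * c + 3) → 𝓞 K) (e : Fin (2 * c + 3) → ℕ) (D : 𝓞 K) : Prop :=
  ∀ T ∈ varying c e, ¬ Exceptional (twist a T * D ^ exponent e T)

/-- the class of `x` modulo cubes -/
def cubeClass (x : K) : Set K := {y | ∃ z : K, z ≠ 0 ∧ y = x * z ^ 3}

/-- the number `κ` of the different classes modulo cubes among the `δ_T ^ (e_T)`, `T` varying -/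
noncomputable def classes {c : ℕ} (a : Fin (2 * c + 3) → 𝓞 K) (e : Fin (2 * c + 3) → ℕ) : ℕ :=
  ((varying c e).image fun T => cubeClass ((twist a T : K) ^ exponent e T)).card

theorem result (K : Type) [Field K] [NumberField K] [IsCyclotomicExtension {3} ℚ K] (c : ℕ)
    (hc : c ≤ 2) (a : Fin (2 * c + 3) → 𝓞 K) (ha : ∀ i, a i ≠ 0 ∧ Primary (a i))
    (e : Fin (2 * c + 3) → ℕ) (hne : c ≤ 1 ∨ ∃ D : 𝓞 K, InFamily D ∧ Regular a e D)
    (hconst : ∀ T : Finset (Fin (2 * c + 3)), T.card = c → 3 ∣ exponent e T →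
      ¬ Exceptional (twist a T) ∨ ∃ z : 𝓞 K, twist a T = z ^ 3) :
    (∃ δ : ℝ, 0 < δ ∧ ∃ X₀ : ℕ, ∀ X : ℕ, X₀ ≤ X →
      δ * X ≤ ({D : 𝓞 K | Algebra.norm ℤ D ≤ X ∧ InFamily D ∧ Regular a e D}.ncard : ℝ)) ∧
    Filter.Tendsto (fun X : ℕ =>
      ({D : 𝓞 K | Algebra.norm ℤ D ≤ X ∧ InFamily D ∧ Regular a e D ∧
        ∀ T ∈ varying c e, FiniteAndTrivial (twist a T * D ^ exponent e T)}.ncard : ℝ) /
        ({D : 𝓞 K | Algebra.norm ℤ D ≤ X ∧ InFamily D ∧ Regular a e D}.ncard : ℝ)) Filter.atTop
      (nhds ((∏' i : ℕ, (1 - (1 / 3 : ℝ) ^ (2 * i + 1))) ^ classes a e)) ∧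
    (0.639 : ℝ) < ∏' i : ℕ, (1 - (1 / 3 : ℝ) ^ (2 * i + 1)) ∧
    ∀ D : 𝓞 K, InFamily D → Regular a e D →
      (∃ L : ℂ → ℂ, IsLFunction (fun i => a i * D ^ e i) L) ∧
      ((∀ T : Finset (Fin (2 * c + 3)), T.card = c →
        FiniteAndTrivial (twist (fun i => a i * D ^ e i) T)) →
          RankZero (fun i => a i * D ^ e i)) := by
  have hlaw := Pool.Agent.K9h21.LF.lawK (varying c e) (twist a) (exponent e)
    (fun T _ => Pool.Agent.K9h21.LF.Dt_ne (fun i => (ha i).1) T)
    (fun T _ => by
      obtain ⟨⟨j, -⟩, -⟩ := Pool.Agent.Y455.CTK.jex K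
      exact Pool.Agent.K9h21.LF.c3_Dt j (fun i => (ha i).2) T)
    (fun T hT => (Finset.mem_filter.1 hT).2)
    (hne.imp_left fun h => Pool.Agent.K9h21.LF.card_le8 h _)
  refine ⟨hlaw.1, hlaw.2, Pool.Agent.XLK.t_C9.2.2.2.1, fun D hD hreg => ?_⟩
  exact Pool.Agent.K9h21.LF.fam_pt hc ha e hconst hD fun T hT h3 =>
    hreg T (Finset.mem_filter.2 ⟨Finset.mem_powersetCard.2 ⟨Finset.subset_univ _, hT⟩, h3⟩)

end Pool.Agent.Results.MP_b8021b_nt.JointLawDiagonalCubics
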