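import Pool.Agent.K9h41.BR.Fd
import Pool.Agent.K9h41.BR.Ord

set_option autoImplicit false

/-! # The conjecture of Beilinson and Bloch and fields with large completions

Let `X` be a smooth projective variety over the number field `B` and let `m ≥ 1`. Beilinson and
Bloch conjecture for every number field `k` that contains `B` that the Chow group `CH^m(X_k)_hom` of
the cycles which are homologically equivalent to zero has finite rank, and that the rank is the order
at `s = m` of the L-function of `H^(2m-1)(X_k)`. The *defect* `δ(k)` is the order minus the rank; the
conjecture says `δ(k) = 0`.

The theorem only uses the characteristic polynomials of the Frobenius elements on `H^(2m-1)(X)`, at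
the primes of `B` outside a finite set (`CohomologyData`; the Euler factors above the finitely many
primes are left out of the L-function, `eulerFactor`), and the representation of `Gal(K / B)` on
`CH^m(X_K)_hom ⊗ ℚ` (`ChowData`), where by Galois descent the group of the field `k` is the space of
the invariants of `Gal(K / k)`.

Let `S` be a finite set of primes of `B`, `M` a positive integer, and `K₀` a finite extension of `B`:
it stands for finitely many finite extensions of the completions `B_p`, `p ∈ S`, which may be as large
as one pleases. Let `F_1, ..., F_t` be finite extensions of `B`, all contained, with `K₀`, in the Galois
extension `E` of `B`, and `a_1, ..., a_t` integers such that the character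
`∑ a_i [F_i ⊗ B_v]` of the Galois group of `B_v` is zero for the real places `v` of `B`, and zero on
the elements which are not the identity on `K₀` for the `v` in `S` (`LocalRelations`).

The theorem: there is a number field `K`, Galois over `B`, which contains `E`, such that for all `m`
and all `X` the following is true. If the conjecture is true for `X_k`, for all fields `k` between `B`
and `K` such that `K / k` is cyclic, `k` is totally complex, `[k : ℚ]` is divisible by `M` and the
completions of `k` at the primes above `S` contain the completions of `K₀` (`TestField`), then
`CH^m(X_(F_i))_hom` has finite rank, and `∑ a_i δ(F_i) = 0` if the L-functions of the `X_(F_i)` have a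
meromorphic continuation. So the conjecture for these test fields has the following consequences.

* The conjecture is true for `X_F` for all totally complex extensions `F` of `B` whose completions at
  the primes above `S` contain the completions of `K₀` (if the L-function of `X_F` has a meromorphic
  continuation), without conditions on the degree. For example (`S` empty) it is true for `X` itself
  if `B` is totally complex.
* The defect of all finite extensions `F` of `B` is a linear function of the characters of the
  local algebras `F ⊗ B_v`, for the `v` in `S` and the real places `v`; two fields which are isomorphic
  at these places have the same defect. For example (`B = ℚ` and `S` empty) the defect of all number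
  fields `F` is `r₁(F)` times a constant, which is the defect of `ℚ`.

If `S` contains the primes of bad reduction and `K₀` is chosen suitably then the completions of the
test fields contain fields over which `X` has semistable reduction; so the conjecture for totally
complex fields of large degree with good or semistable reduction at all places controls the conjecture
for all number fields `F` up to the local data of `F` at `S` and at `∞`.

The proof: `K` is constructed such that every element `g` of `Gal(K / B)` for which the fixed field of
`g` is not a test field has, on `E`, the action of a complex conjugation, or of an element of a
decomposition group above a prime in `S` which does not fix `K₀`. For the second, let `L` be a Galois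
field which contains everything; there is a Galois field `K` over `L` such that the automorphisms of
`K` which are in the decomposition groups of two primes `P`, `P'` above `p` with different
restrictions to `L` are the identity on `L` (`kras`; a finite form of the theorem of F. K. Schmidt,
that a field has at most one henselian valuation, proved with a polynomial whose roots are close to
the conjugates of a generator of `L` at `P` and close to rational integers at `P'`, and Krasner's
lemma). If `g` does not fix `P ∩ L` then an element of the group of `g` in the decomposition group of
`P` is in the one of `gP` as well. So the class function `∑ a_i |Hom_B(F_i, K)^g|` is zero at all `g`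
which do not belong to test fields, and by Artin's theorem a multiple is an integral combination of
the permutation characters of the test fields (`exists_K`). The orders and the ranks satisfy the same
relation (`core`). -/

namespace Pool.Agent.Results.MP_b8021b_nt.LargeCompletions

open Pool.Agent.K9h41.BR NumberField IntermediateField

/-- **The defect in the conjecture of Beilinson and Bloch is a local invariant of the field, if the
conjecture is true for fields with large completions.** Let `E` be a Galois extension of the number
field `B` with the intermediate fields `K₀` and `F_1, ..., F_t`, let `a_1, ..., a_t` be integers, `S` a
finite set of primes of `B` and `M` a positive integer, such that `LocalRelations` holds: for the real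
places of `B` and the primes in `S` the characters `∑ a_i [F_i ⊗ B_v]` are zero on the elements which
do not fix `K₀` (on all elements, for the real places). Then there are a number field `K`, Galois over
`B`, and an embedding of `E` in `K` with the following property, for all varieties `X` over `B`, in
all degrees: if the conjecture is true for the base changes of `X` to the test fields between `B`
and `K` (totally complex, of degree divisible by `M`, with completions above `S` which contain those
of `K₀`), then `CH^m(X_(F_i))_hom ⊗ ℚ` is finite-dimensional for all `i`, and
`∑ a_i (r_i - rank_i) = 0` for the orders `r_i` of the L-functions and the ranks of the groups. -/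
theorem result {B E : Type} [Field B] [NumberField B] [Field E] [NumberField E] [Algebra B E]
    [IsGalois B E] (K₀ : IntermediateField B E) {t : ℕ} (F : Fin t → IntermediateField B E)
    (a : Fin t → ℤ) (S : Finset (Ideal (𝓞 B))) (M : ℕ) (hM : 0 < M)
    (hloc : LocalRelations S K₀ F a) :
    ∃ (K : Type) (_ : Field K) (_ : NumberField K) (_ : Algebra B K) (_ : IsGalois B K)
      (ι : E →ₐ[B] K), ∀ (X : CohomologyData B) (C : ChowData B K),
      (∀ k : IntermediateField B K, TestField S M (K₀.map ι) k → BeilinsonBloch C X k) →
        (∀ i, FiniteDimensional ℚ (C.over ((F i).map ι))) ∧
        ∀ r : Fin t → ℤ, (∀ i, HasOrder X ((F i).map ι) (r i)) →
          ∑ i, a i * (r i - Module.finrank ℚ (C.over ((F i).map ι))) = 0 := by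
  classical
  obtain ⟨K, iK1, iK2, iB, iG, ι, N, c, hN, hbot, hc, hrel⟩ := exists_K K₀ F a S M hM hloc
  refine ⟨K, iK1, iK2, iB, iG, ι, fun X C h => ?_⟩
  have htest : ∀ U : Subgroup (K ≃ₐ[B] K), Small S M (K₀.map ι) U → IsCyclic U →
      FiniteDimensional ℚ (C.inv U) ∧
        HasOrder X (fixedField U) (Module.finrank ℚ (C.inv U)) := by
    intro U hU hU'
    have h1 := h (fixedField U) (hU.test hU')
    rw [BeilinsonBloch, ChowData.over, IntermediateField.fixingSubgroup_fixedField] at h1
    exact h1
  have hfin : FiniteDimensional ℚ C.V := by
    have h1 := (htest ⊥ hbot inferInstance).1
    have h2 : C.inv ⊥ = ⊤ := by
      rw [eq_top_iff]
      intro x _ g hg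
      rw [Subgroup.mem_bot.mp hg, map_one]
      rfl
    rw [h2] at h1
    exact (Submodule.topEquiv (R := ℚ) (M := C.V)).finiteDimensional
  refine ⟨fun i => inferInstance, fun r hr => ?_⟩
  have : Fintype (Subgroup (K ≃ₐ[B] K)) := Fintype.ofFinite _
  refine core X C (fun i => ((F i).map ι).fixingSubgroup) a hN (c := c)
    (fun g => ?_) (fun U hU => (htest U (hc U hU).1 (hc U hU).2).2) hfin r (fun i => ?_)
  · rw [← hrel g, finsum_eq_sum_of_fintype]
  · have h1 := hr i
    rwa [← IsGalois.fixedField_fixingSubgroup ((F i).map ι)] at h1

end Pool.Agent.Results.MP_b8021b_nt.LargeCompletions
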