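import Pool.Agent.Results.MP_f50388_nt.TwistsTwoPart
import Pool.Agent.K9h33.QX.LF
import Pool.Agent.K9h33.QX.Ex

/-!
# The Beilinson-Bloch conjecture over cyclic number fields of degree `2 ^ n`: quadric bundles of all odd
# dimensions whose intermediate Jacobian is a product of two twists of `X_0(49)`

Let `ρ` be a prime number with `ρ ≡ 1 mod 4` which is inert in `ℚ(√-7)`, let `n ≥ 1` and let `K` be the
subfield of `ℚ(ζ_ρ)` of degree `2 ^ n` over `ℚ` (it is totally real or totally complex; `2 ^ n` divides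
`ρ - 1`; there are infinitely many `ρ` for each `n`). Let `P` be the set of the primes `q ≡ 1 mod 4`,
`q ≠ ρ`, which are inert in `ℚ(√-7)` and for which `q²` is a `2 ^ n`-th power modulo `ρ` (`Adm`; for
`n = 1` all primes `q ≡ 1 mod 4` inert in `ℚ(√-7)`). For finite subsets `S` and `T` of `P` let `D` be the
product of the primes in `S`, `M` the product of the primes in `T` and `N` the product of the primes which
are in exactly one of `S` and `T`. Let `E_D` be the quadratic twist by `D` of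
`X_0(49) : y² + x y = x³ - x² - 2 x - 1` and

`F_{D,M}(x, z) = - 3 D (x² + M z²) (16 x⁴ - 31 M x² z² + 16 M² z⁴)`.

Let `r ≥ 0` and let `A(x, z)` be ANY symmetric matrix of size `2 r + 2` whose entries are binary forms over
the ring of integers of `K` of the degrees `e_i + e_j`, with `(-1)^(r+1) det A = m² F_{D,M}`, `m ≠ 0`. The
equation `∑ A_ij(x, z) y_i y_j = 0` defines a variety `X` over `K` of dimension `2 r + 1`, a bundle of
quadrics of dimension `2 r` over the projective line, with six singular fibres. For `r = 0` it is the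
curve `C_{D,M} : y² = F_{D,M}(x, 1)` of genus two, for `r = 1` these are threefolds, for instance Fano
threefolds of type 2.18. Its odd cohomology is `H^(2r+1)(X) = H¹(C_{D,M})(-r)`, and
`CH^(r+1)(X)_hom ⊗ ℚ = J(K) ⊗ ℚ`, `J` the Jacobian of `C_{D,M}`, all the other groups `CH^i(X)_hom ⊗ ℚ` are
zero (the Chow motive of a quadric bundle over the line; this is not formalized); `J` is isogenous to
`E_D × E_N` over `ℚ`.

**Theorem.** For all `ρ`, `n`, `K`, `S`, `T`:
(1) the orders of `E_D(K)` and `E_N(K)` are twice odd numbers, and the 2-primary parts of their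
Tate-Shafarevich groups over `K` are zero;
(2) for all `r` and all `X`: `X` is smooth, also over all residue fields of `K` of characteristic prime to
`42 D M m`, and `L(H^(2r+1)(X/K), s)`, the Euler product with the eigenvalues of Frobenius given by
the numbers of the points of `X` over the finite fields, and with the factors of `E_D` and `E_N` at the
primes dividing `42 D M m`, is entire and does not vanish at `s = r + 1`;
(3) there are such `X` for all `r`, with `m = 1`.

So the rank of `J(K)` and the order of vanishing of `L(H^(2r+1)(X/K), s)` at `s = r + 1` are zero: the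
conjecture of Beilinson and Bloch holds for the `X` over these number fields, of unbounded degree, in
unbounded dimensions. The arithmetic input is the starting result `MP_f50388_nt.TwistsTwoPart` (the curves
`E_D` over `K`).
-/

set_option autoImplicit false

open NumberField IsDedekindDomain WeierstrassCurve

namespace Pool.Agent.Results.MP_b8021b_nt.QuadricBundlesCyclicFields

open Pool.Agent.K9h33.QX
open Pool.Agent.Results.MP_f50388_nt.TwistsTwoPart (Sha2 twist base)

/-- the primes `q ≡ 1 mod 4`, `q ≠ ρ`, inert in `ℚ(√-7)`, with Frobenius element of order one or two in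
the cyclic extension of degree `2 ^ n` in `ℚ(ζ_ρ)` -/
def Adm (ρ n q : ℕ) : Prop :=
  q.Prime ∧ q % 4 = 1 ∧ ¬ IsSquare (-7 : ZMod q) ∧ q ≠ ρ ∧ ∃ y : ZMod ρ, y ^ 2 ^ n = (q : ZMod ρ) ^ 2

/-- The Mordell-Weil group is finite, its order is twice an odd number, and the 2-primary part of the
Tate-Shafarevich group is zero -/
def RankZeroShaTwo {K : Type} [Field K] [NumberField K] (E : WeierstrassCurve K) : Prop :=
  (∃ t : ℕ, Odd t ∧ Nat.card E.toAffine.Point = 2 * t) ∧ Sha2 E = {0}

lemma prod_sq (S T : Finset ℕ) : (∏ q ∈ S, q) * ∏ q ∈ T, q =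
    (∏ q ∈ symmDiff S T, q) * (∏ q ∈ S ∩ T, q) ^ 2 := by
  have h1 : ∏ q ∈ S, q = (∏ q ∈ S \ T, q) * ∏ q ∈ S ∩ T, q := by
    rw [← Finset.prod_union (Finset.disjoint_sdiff_inter S T), Finset.sdiff_union_inter]
  have h2 : ∏ q ∈ T, q = (∏ q ∈ T \ S, q) * ∏ q ∈ S ∩ T, q := by
    rw [Finset.inter_comm, ← Finset.prod_union (Finset.disjoint_sdiff_inter T S),
      Finset.sdiff_union_inter]
  have h3 : ∏ q ∈ symmDiff S T, q = (∏ q ∈ S \ T, q) * ∏ q ∈ T \ S, q := by
    rw [symmDiff_def, Finset.sup_eq_union, Finset.prod_union]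
    exact disjoint_sdiff_sdiff
  rw [h1, h2, h3]
  ring

theorem result {ρ n : ℕ} (hρ : ρ.Prime) (h4 : ρ % 4 = 1) (h7 : ¬ IsSquare (-7 : ZMod ρ))
    (hn : 1 ≤ n) (K : IntermediateField ℚ (CyclotomicField ρ ℚ))
    (hK : Module.finrank ℚ K = 2 ^ n)
    (S T : Finset ℕ) (hS : ∀ q ∈ S, Adm ρ n q) (hT : ∀ q ∈ T, Adm ρ n q)
    (D M N : ℕ) (hD : D = ∏ q ∈ S, q) (hM : M = ∏ q ∈ T, q) (hN : N = ∏ q ∈ symmDiff S T, q) :
    RankZeroShaTwo ((Tw D).map (Int.castRingHom K)) ∧
    RankZeroShaTwo ((Tw N).map (Int.castRingHom K)) ∧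
    (∀ (r : ℕ) (B : Bundle (𝓞 K) r) (m : 𝓞 K), HasDisc B m D M →
      (∀ (k : Type) [Field k] (φ : 𝓞 K →+* k), φ (((42 * D * M : ℕ) : 𝓞 K) * m) ≠ 0 →
        B.Smooth φ) ∧
      ∃ L : ℂ → ℂ, IsLFunction B m D M N L ∧ L (r + 1) ≠ 0) ∧
    (∀ r : ℕ, ∃ B : Bundle (𝓞 K) r, HasDisc B 1 D M) := by
  have hU : ∀ q ∈ symmDiff S T, Adm ρ n q := by
    intro q hq
    rcases Finset.mem_symmDiff.1 hq with h | h
    · exact hS q h.1
    · exact hT q h.1
  obtain ⟨-, a1, -, a2, Λ₁, a3, a4, a5, -⟩ :=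
    Pool.Agent.Results.MP_f50388_nt.TwistsTwoPart.result hρ h4 h7 hn K hK S hS D hD
  obtain ⟨-, b1, -, b2, Λ₂, b3, b4, b5, -⟩ :=
    Pool.Agent.Results.MP_f50388_nt.TwistsTwoPart.result hρ h4 h7 hn K hK (symmDiff S T) hU N hN
  have m1 := Pool.Agent.Y698.prod_mod_four (S := S) fun q hq => (hS q hq).2.1
  have m2 := Pool.Agent.Y698.prod_mod_four (S := symmDiff S T) fun q hq => (hU q hq).2.1
  rw [← hD] at m1
  rw [← hN] at m2
  have e3 : D * M = N * (∏ q ∈ S ∩ T, q) ^ 2 := by
    rw [hD, hM, hN]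
    exact prod_sq S T
  refine ⟨⟨a1, a2⟩, ⟨b1, b2⟩, fun r B m h => ⟨?_, ?_⟩, fun r => ⟨ex (𝓞 K) r D M, ex_disc (𝓞 K) r D M⟩⟩
  · intro k _ φ hφ
    rw [map_mul, map_natCast] at hφ
    exact h.smooth φ (Gd.of (left_ne_zero_of_mul hφ)) (right_ne_zero_of_mul hφ)
  · refine ⟨_, lfun h (j := D / 4) (i := N / 4) (by omega) (by omega) e3 a3 b3 a4 b4, ?_⟩
    have e : ((r : ℂ) + 1 - r) = 1 := by ring
    show Λ₁ ((r : ℂ) + 1 - r) * Λ₂ ((r : ℂ) + 1 - r) ≠ 0
    rw [e]
    exact mul_ne_zero a5 b5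

end Pool.Agent.Results.MP_b8021b_nt.QuadricBundlesCyclicFields
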